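import Pool.Agent.N646.RO.Stm
import Pool.Agent.W25.QL.Main
import Pool.Agent.H387R2.UDefs

/-!
Project RQ (helper646): almost cliques with the right order of magnitude. Statements, second part.
-/

set_option autoImplicit false

namespace Pool.Agent.N646.RO

open Finset Filter Topology
open Pool.Agent.W25.QL (Fails)
open Pool.Agent.W70.QP (Cx)

open Classical in
/-- **BRM** as `Pool.Agent.W25.QL.bad_rare`, for a family with the hitting property for most
configurations. -/
def S_BRM : Prop := ∀ (lam : ℝ), 0 < lam → ∀ (T : ℕ) (Kf : ℕ → ℕ) (δ : ℝ), 0 < δ →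
  ∃ M n₀ : ℕ, ∃ δ' : ℝ, 0 < δ' ∧ ∀ (α : Type) [DecidableEq α] (V : Finset α) (G : Finset α → Prop),
    n₀ ≤ V.card → (∀ F F' : Finset α, F' ⊆ F → G F → G F') → HitM lam Kf M δ' V G →
    (((Fintype.piFinset (fun _ : Fin T => V)).filter (fun x => Function.Injective x ∧
        ∃ m, Fails lam (Cx G x) m)).card : ℝ) ≤ δ * (V.card : ℝ) ^ T

open Classical in
/-- **SS** the singular series is bounded for most tuples of multiples of `M`. -/
def S_SS : Prop := ∀ (k M : ℕ) (ε : ℝ), 1 ≤ M → 0 < ε → ∃ C : ℝ, 0 < C ∧ ∀ T : ℕ,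
  (((Fintype.piFinset (fun _ : Fin (k + 1) => range T)).filter (fun F => Function.Injective F ∧
    C < Pool.Agent.H387R2.Uni.CT (univ.image (fun i => M * F i)))).card : ℝ) ≤ ε * (T : ℝ) ^ (k + 1)

end Pool.Agent.N646.RO
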