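import Pool.Agent.N646.RO.Ser
import Pool.Agent.N591.RQ_WC
import Pool.Agent.N595.RQ_BRM
import Pool.Agent.N769.RQ_HITM
import Pool.Agent.N769.RQ_E1
import Pool.Agent.N738.RQ_E2
import Pool.Agent.N692.RQ_WB
import Pool.Agent.N415.RQ_BB
import Pool.Agent.N592.RQ_MB
import Pool.Agent.N2.RQ_HIT
import Pool.Agent.N647.RQ_SS

/-!
# Project RQ: the right order of magnitude for the linear equations in good vectors

Assembly of the parts (helpers 646, 591, 595, 769, 738, 692, 415, 592, 2, 647).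
-/

set_option autoImplicit false

namespace Pool.Agent.N646.RO

theorem sMB : S_MB := Pool.Agent.N592.RQ.main

theorem sWB : S_WB := Pool.Agent.N692.RQWB.main sMB

theorem sBB : S_BB := Pool.Agent.N415.RQBB.main sMB

theorem sHITM (k : ℕ) : S_HITM k :=
  Pool.Agent.N769.RQ_HITM.main Pool.Agent.N2.RQHIT.main
    (Pool.Agent.N769.RQ_E1.main sWB sBB) k (Pool.Agent.N738.RQE2.main sWB k)

open Finset Filter in
open Classical in
/-- Linear equations in good vectors, right order of magnitude, all scales `λ log x ≤ T ≤ x / B`. -/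
theorem equations_final (k p : ℕ) (a : Fin p → ℤ)
    (ha : ∀ i, a i ≠ 0) (hp : 2 ≤ p) (hk : ((k : ℤ) + 1) * (18 - 5 * p) < 18) :
    ∃ N B : ℕ, 1 ≤ N ∧ 1 ≤ B ∧ ∃ c : ℝ, 0 < c ∧ ∀ lam : ℝ, 0 < lam → ∃ κ : ℝ, 0 < κ ∧
      ∀ᶠ x : ℕ in atTop, ∀ T : ℕ, lam * Real.log x ≤ T → B * T ≤ x →
      ∀ v : Fin k → ℤ, (∀ j, (N : ℤ) ∣ v j) → (∀ j, B * |v j| ≤ T) →
        c * (T : ℝ) ^ ((p - 1) * k) ≤
          (((Fintype.piFinset (fun _ : Fin p => Fintype.piFinset (fun _ : Fin k =>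
            Ioo (-(T : ℤ)) T))).filter
              (fun h => (∀ i, GoodS k κ x (h i)) ∧ ∀ j, ∑ i, a i * h i j = v j)).card : ℝ) :=
  equationsR (Pool.Agent.N591.RQ.main Pool.Agent.N595.RQ.main) Pool.Agent.N647.RQSS.main
    k p (sHITM k) a ha hp hk

end Pool.Agent.N646.RO
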