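import Pool.Agent.N646.RO.Stm
import Pool.Agent.N646.SF.All
import Pool.Agent.Y827.RO.NarF

/-! Project RQ: the assembly, without the singular series. -/

set_option autoImplicit false

namespace Pool.Agent.N646.RO

open Finset Filter Topology

/-- `n, n + h_1, …, n + h_k` are all prime for at least `κ x / (log x) ^ (k + 1)` of the `n ≤ x` -/
def GoodR (k : ℕ) (κ : ℝ) (x : ℕ) (h : Fin k → ℤ) : Prop :=
  κ * ((x : ℝ) / (Real.log x) ^ (k + 1)) ≤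
    (((Icc 1 x).filter (fun n : ℕ =>
      ∀ i, ((n : ℤ) + (Fin.cons 0 h : Fin (k + 1) → ℤ) i).toNat.Prime)).card : ℝ)

theorem Gd_mono {k : ℕ} {κ κ' : ℝ} {N M : ℕ} {F : Fin (k + 1) → ℕ} (h : κ' ≤ κ) (hF : Gd κ N M F) :
    Gd κ' N M F := by
  unfold Gd at hF ⊢
  refine le_trans (mul_le_mul_of_nonneg_right h ?_) hF
  have : 0 ≤ Real.log (N : ℝ) := Real.log_natCast_nonneg N
  positivity

theorem min_pos' (f : ℕ → ℝ) (hf : ∀ n, 0 < f n) (M : ℕ) : ∃ κ : ℝ, 0 < κ ∧ ∀ n ≤ M, κ ≤ f n := by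
  induction M with
  | zero => exact ⟨f 0, hf 0, fun n hn => by rw [Nat.le_zero.1 hn]⟩
  | succ M ih =>
    obtain ⟨κ, h1, h2⟩ := ih
    refine ⟨min κ (f (M + 1)), lt_min h1 (hf _), fun n hn => ?_⟩
    rcases Nat.lt_or_ge n (M + 1) with h | h
    · exact (min_le_left _ _).trans (h2 n (by omega))
    · have : n = M + 1 := by omega
      rw [this]
      exact min_le_right _ _

theorem good_conv {k : ℕ} {κ : ℝ} (hκ : 0 < κ) {x N M : ℕ} (hN : N = x / 4) (hx : 64 ≤ x)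
    {y : Fin (k + 1) → ℕ} (hy : 2 * N + M * y 0 ≤ x) (h : Gd κ N M y) :
    GoodR k (κ / 8) x (fun j => (M : ℤ) * ((y j.succ : ℤ) - y 0)) := by
  unfold GoodR
  unfold Gd piR at h
  have hN16 : 16 ≤ N := by omega
  have hNR : (16 : ℝ) ≤ N := by exact_mod_cast hN16
  have hxN : (x : ℝ) ≤ 8 * N := by
    have : x ≤ 8 * N := by omega
    exact_mod_cast this
  have hl0 : 0 < Real.log (N : ℝ) := Real.log_pos (by linarith)
  have hNx : (N : ℝ) ≤ x := by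
    have : N ≤ x := by omega
    exact_mod_cast this
  have hl1 : Real.log (N : ℝ) ≤ Real.log x := Real.log_le_log (by linarith) hNx
  have h1 : κ / 8 * ((x : ℝ) / (Real.log x) ^ (k + 1)) ≤ κ * (N / (Real.log N) ^ (k + 1)) := by
    have h2 : (x : ℝ) / (Real.log x) ^ (k + 1) ≤ (8 * N) / (Real.log N) ^ (k + 1) :=
      div_le_div₀ (by positivity) hxN (by positivity) (pow_le_pow_left₀ hl0.le hl1 _)
    calc κ / 8 * ((x : ℝ) / (Real.log x) ^ (k + 1)) ≤ κ / 8 * ((8 * N) / (Real.log N) ^ (k + 1)) :=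
          mul_le_mul_of_nonneg_left h2 (by positivity)
      _ = κ * (N / (Real.log N) ^ (k + 1)) := by ring
  refine h1.trans (h.trans ?_)
  rw [Nat.cast_le]
  apply card_le_card_of_injOn (fun n => n + M * y 0)
  · intro n hn
    rw [mem_coe, mem_filter, mem_Icc] at hn
    rw [mem_coe, mem_filter, mem_Icc]
    refine ⟨⟨by show 1 ≤ n + M * y 0; omega, by show n + M * y 0 ≤ x; omega⟩, fun i => ?_⟩
    have hi := hn.2 i
    rcases Fin.eq_zero_or_eq_succ i with h0 | ⟨j, hj⟩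
    · subst h0
      rw [Fin.cons_zero, add_zero]
      show (((n + M * y 0 : ℕ) : ℤ)).toNat.Prime
      rw [Int.toNat_natCast]
      exact hi
    · subst hj
      rw [Fin.cons_succ]
      show ((((n + M * y 0 : ℕ) : ℤ)) + (M : ℤ) * ((y j.succ : ℤ) - y 0)).toNat.Prime
      have e1 : (((n + M * y 0 : ℕ) : ℤ)) + (M : ℤ) * ((y j.succ : ℤ) - y 0) =
          ((n + M * y j.succ : ℕ) : ℤ) := by push_cast; ring
      rw [e1, Int.toNat_natCast]
      exact hi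
  · intro a _ b _ hab
    have : a + M * y 0 = b + M * y 0 := hab
    omega

open Classical in
/-- **almost cliques with the right order of magnitude** -/
theorem clr (hWC : S_WC) (k : ℕ) (hH : S_HITM k) (ε : ℝ) (hε : 0 < ε) : ∃ M₀ : ℕ, 1 ≤ M₀ ∧
    (k + 1).factorial ∣ M₀ ∧ ∀ lam : ℝ, 0 < lam → ∃ κ : ℝ, 0 < κ ∧ ∀ᶠ x : ℕ in atTop, ∀ T₁ : ℕ, lam * Real.log x ≤ T₁ →
      8 * (M₀ * T₁) ≤ x → ∃ A ⊆ range T₁, (5 / 18 - ε) * T₁ ≤ (A.card : ℝ) ∧
        (((Fintype.piFinset (fun _ : Fin (k + 1) => A)).filter (fun y : Fin (k + 1) → ℕ =>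
          Function.Injective y ∧ ¬ GoodR k κ x (fun j => (M₀ : ℤ) * ((y j.succ : ℤ) - y 0)))).card : ℝ) ≤
            ε * (T₁ : ℝ) ^ (k + 1) := by
  have hex : ∀ T : ℕ, ∃ M' K : ℕ, 1 ≤ T → (T : ℝ) ≤ (18 / 5) * ((M' + 1 : ℕ) : ℝ) ∧ 1 ≤ K ∧
    ∀ M₀ : ℕ, 1 ≤ M₀ → (∀ p : ℕ, p.Prime → p ≤ T * K → p ∣ M₀) → ∀ lam δ' : ℝ, 0 < lam → 0 < δ' →
    ∃ κ : ℝ, 0 < κ ∧ ∀ᶠ N : ℕ in atTop, ∀ T₁ : ℕ, lam * Real.log N ≤ T₁ → 2 * (M₀ * T₁) ≤ N →
      (((Fintype.piFinset (fun _ : Fin T × Fin K => range T₁)).filter (fun H => Function.Injective H ∧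
        ¬ ∃ (S : Finset (Fin T)) (σ : Fin T → Fin K), M' + 1 ≤ S.card ∧
          ∀ F : Fin (k + 1) → ℕ, Function.Injective F → (∀ i, ∃ g ∈ S, F i = H (g, σ g)) →
            Gd κ N M₀ F)).card : ℝ) ≤ δ' * (T₁ : ℝ) ^ (T * K) := by
    intro T
    by_cases hT : 1 ≤ T
    · obtain ⟨M', h1, h2⟩ := Pool.Agent.Y827.RO.ceilM T hT
      obtain ⟨K, hK, h3⟩ := hH T M' hT h1
      exact ⟨M', K, fun _ => ⟨h2, hK, h3⟩⟩
    · exact ⟨0, 0, fun h => absurd h hT⟩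
  choose Mf Kf hf using hex
  obtain ⟨M, n₀, δ', hδ', hWC'⟩ := hWC (18 / 5) (by norm_num) k ε hε Kf
  refine ⟨(∑ T' ∈ range (M + 1), T' * Kf T' + (k + 1)).factorial, Nat.factorial_pos _,
    Nat.factorial_dvd_factorial (Nat.le_add_left _ _), fun lam hlam => ?_⟩
  set M₀ : ℕ := (∑ T' ∈ range (M + 1), T' * Kf T' + (k + 1)).factorial with hM₀
  have hM₀1 : 1 ≤ M₀ := Nat.factorial_pos _
  have hdvd : ∀ T', T' ≤ M → ∀ p : ℕ, p.Prime → p ≤ T' * Kf T' → p ∣ M₀ := by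
    intro T' hT' p hp hpT
    apply Nat.dvd_factorial hp.pos (hpT.trans _)
    refine (Finset.single_le_sum (f := fun T' => T' * Kf T') (fun _ _ => Nat.zero_le _)
      (mem_range.2 (by omega : T' < M + 1))).trans (Nat.le_add_right _ _)
  have hκex : ∀ T' : ℕ, ∃ κ : ℝ, 0 < κ ∧ (1 ≤ T' → T' ≤ M → ∀ᶠ N : ℕ in atTop, ∀ T₁ : ℕ,
      lam * Real.log N ≤ T₁ → 2 * (M₀ * T₁) ≤ N →
      (((Fintype.piFinset (fun _ : Fin T' × Fin (Kf T') => range T₁)).filter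
        (fun H => Function.Injective H ∧
        ¬ ∃ (S : Finset (Fin T')) (σ : Fin T' → Fin (Kf T')), Mf T' + 1 ≤ S.card ∧
          ∀ F : Fin (k + 1) → ℕ, Function.Injective F → (∀ i, ∃ g ∈ S, F i = H (g, σ g)) →
            Gd κ N M₀ F)).card : ℝ) ≤ δ' * (T₁ : ℝ) ^ (T' * Kf T')) := by
    intro T'
    by_cases h : 1 ≤ T' ∧ T' ≤ M
    · obtain ⟨h1, h2⟩ := h
      obtain ⟨_, _, h3⟩ := hf T' h1
      obtain ⟨κ, hκ, h4⟩ := h3 M₀ hM₀1 (hdvd T' h2) lam δ' hlam hδ'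
      exact ⟨κ, hκ, fun _ _ => h4⟩
    · exact ⟨1, one_pos, fun h1 h2 => absurd ⟨h1, h2⟩ h⟩
  choose κf hκf hκf' using hκex
  obtain ⟨κ, hκ, hκle⟩ := min_pos' κf hκf M
  refine ⟨κ / 8, by positivity, ?_⟩
  have hev : ∀ᶠ N : ℕ in atTop, ∀ T' ∈ Icc 1 M, ∀ T₁ : ℕ,
      lam * Real.log N ≤ T₁ → 2 * (M₀ * T₁) ≤ N →
      (((Fintype.piFinset (fun _ : Fin T' × Fin (Kf T') => range T₁)).filter
        (fun H => Function.Injective H ∧
        ¬ ∃ (S : Finset (Fin T')) (σ : Fin T' → Fin (Kf T')), Mf T' + 1 ≤ S.card ∧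
          ∀ F : Fin (k + 1) → ℕ, Function.Injective F → (∀ i, ∃ g ∈ S, F i = H (g, σ g)) →
            Gd (κf T') N M₀ F)).card : ℝ) ≤ δ' * (T₁ : ℝ) ^ (T' * Kf T') := by
    rw [Filter.eventually_all_finset]
    intro T' hT'
    obtain ⟨h1, h2⟩ := mem_Icc.1 hT'
    exact hκf' T' h1 h2
  have htend : Tendsto (fun x : ℕ => x / 4) atTop atTop := by
    refine tendsto_atTop.2 fun b => ?_
    filter_upwards [eventually_ge_atTop (4 * b)] with x hx
    omega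
  have hlog : Tendsto (fun N : ℕ => lam * Real.log (N : ℝ)) atTop atTop :=
    (Real.tendsto_log_atTop.comp tendsto_natCast_atTop_atTop).const_mul_atTop hlam
  filter_upwards [htend.eventually hev, hlog.eventually_ge_atTop (n₀ : ℝ), eventually_ge_atTop 64]
    with x hx hxn hx64 T₁ hT₁ hT₁x
  set N : ℕ := x / 4 with hN
  have hNx : (N : ℝ) ≤ x := by
    have : N ≤ x := by omega
    exact_mod_cast this
  have hN1 : (1 : ℝ) ≤ N := by
    have : 1 ≤ N := by omega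
    exact_mod_cast this
  have hlN : lam * Real.log N ≤ T₁ :=
    (mul_le_mul_of_nonneg_left (Real.log_le_log (by linarith) hNx) hlam.le).trans hT₁
  have hMT : 2 * (M₀ * T₁) ≤ N := by omega
  have hn0T : n₀ ≤ T₁ := by
    have : (n₀ : ℝ) ≤ T₁ := hxn.trans hT₁
    exact_mod_cast this
  set G : Finset ℕ → Prop := fun F' => ∀ y : Fin (k + 1) → ℕ, Function.Injective y →
    (∀ i, y i ∈ F') → Gd κ N M₀ y with hG
  have hGh : ∀ F F' : Finset ℕ, F' ⊆ F → G F → G F' := fun F F' hF hGF y hy hy' =>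
    hGF y hy fun i => hF (hy' i)
  have hHit : HitM (18 / 5) Kf M δ' (range T₁) G := by
    intro T' h1 h2
    rw [card_range]
    refine le_trans ?_ (hx T' (mem_Icc.2 ⟨h1, h2⟩) T₁ hlN hMT)
    rw [Nat.cast_le]
    apply card_le_card
    intro H hH'
    rw [mem_filter] at hH' ⊢
    refine ⟨hH'.1, hH'.2.1, ?_⟩
    rintro ⟨S, σ, hS, hF⟩
    apply hH'.2.2
    refine ⟨S, σ, ?_, ?_⟩
    · have h3 := (hf T' h1).1
      have h4 : ((Mf T' + 1 : ℕ) : ℝ) ≤ (S.card : ℝ) := by exact_mod_cast hS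
      calc (T' : ℝ) ≤ (18 / 5) * ((Mf T' + 1 : ℕ) : ℝ) := h3
        _ ≤ 18 / 5 * (S.card : ℝ) := mul_le_mul_of_nonneg_left h4 (by norm_num)
    · intro y hy hy'
      apply Gd_mono (hκle T' h2)
      apply hF y hy
      intro i
      obtain ⟨g, hg, hgy⟩ := mem_image.1 (hy' i)
      exact ⟨g, hg, hgy.symm⟩
  obtain ⟨A, hA1, hA2, hA3⟩ := hWC' ℕ (range T₁) G (by rw [card_range]; exact hn0T) hGh hHit
  rw [card_range] at hA2 hA3
  refine ⟨A, hA1, ?_, ?_⟩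
  · refine le_trans (le_of_eq ?_) hA2
    norm_num
  · refine le_trans ?_ hA3
    rw [Nat.cast_le]
    apply card_le_card
    intro y hy
    rw [mem_filter] at hy
    unfold badU
    rw [mem_filter]
    refine ⟨hy.1, hy.2.1, fun hGy => hy.2.2 ?_⟩
    apply good_conv hκ hN hx64
    · have h1 := mem_range.1 (hA1 (Fintype.mem_piFinset.1 hy.1 0))
      have h2 : M₀ * y 0 ≤ M₀ * T₁ := Nat.mul_le_mul_left _ h1.le
      omega
    · exact hGy y hy.2.1 fun i => mem_image_of_mem y (mem_univ i)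

end Pool.Agent.N646.RO
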