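import Pool.Agent.N646.SF.All
import Pool.Agent.N646.RO.Asm

/-! Project RQ: from almost cliques of multiples of `M` to the equations. -/

set_option autoImplicit false

namespace Pool.Agent.N646.RO

open Finset Filter Topology
open Pool.Agent.N646.SF

open Classical in
theorem lift {k p : ℕ} {a : Fin p → ℤ} {ρ ε c₁ : ℝ} {Q B₁ : ℕ} (hc₁ : 0 < c₁)
    (h : ∀ T : ℕ, B₁ ≤ T → ∀ A : Finset ℤ, A ⊆ Ico 0 (T : ℤ) → (ρ - ε) * T ≤ A.card →
      ∀ g : (Fin k → ℤ) → Prop,
      (((Fintype.piFinset (fun _ : Fin (k + 1) => A)).filter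
        (fun y => Function.Injective y ∧ ¬ g (fun j => y j.succ - y 0))).card : ℝ) ≤
          ε * (T : ℝ) ^ (k + 1) →
      ∀ v : Fin k → ℤ, (∀ j, (Q : ℤ) ∣ v j) → (∀ j, B₁ * |v j| ≤ T) →
        c₁ * (T : ℝ) ^ ((p - 1) * k) ≤
          (((Fintype.piFinset (fun _ : Fin p => Fintype.piFinset (fun _ : Fin k =>
            Ioo (-(T : ℤ)) T))).filter
              (fun h => (∀ i, g (h i)) ∧ ∀ j, ∑ i, a i * h i j = v j)).card : ℝ))
    (M : ℕ) (hM : 1 ≤ M) (g : (Fin k → ℤ) → Prop) (T : ℕ) (hT : M * (B₁ + 1) ≤ T) (A : Finset ℤ)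
    (hA1 : A ⊆ Ico 0 ((T / M : ℕ) : ℤ)) (hA2 : (ρ - ε) * ((T / M : ℕ) : ℝ) ≤ A.card)
    (hA3 : (((Fintype.piFinset (fun _ : Fin (k + 1) => A)).filter
        (fun y => Function.Injective y ∧ ¬ g (fun j => M * (y j.succ - y 0)))).card : ℝ) ≤
          ε * ((T / M : ℕ) : ℝ) ^ (k + 1))
    (v : Fin k → ℤ) (hv1 : ∀ j, ((Q * M : ℕ) : ℤ) ∣ v j)
    (hv2 : ∀ j, ((2 * M * B₁ : ℕ) : ℤ) * |v j| ≤ T) :
    c₁ / (2 * M) ^ ((p - 1) * k) * (T : ℝ) ^ ((p - 1) * k) ≤
      (((Fintype.piFinset (fun _ : Fin p => Fintype.piFinset (fun _ : Fin k =>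
        Ioo (-(T : ℤ)) T))).filter
          (fun h => (∀ i, g (h i)) ∧ ∀ j, ∑ i, a i * h i j = v j)).card : ℝ) := by
  have hMZ : (0 : ℤ) < M := by exact_mod_cast hM
  have hMR : (0 : ℝ) < M := by exact_mod_cast hM
  set S : ℕ := T / M with hS
  have hS1 : M * S ≤ T := Nat.mul_div_le T M
  have hS2 : T < M * (S + 1) := Nat.lt_mul_div_succ T hM
  have hS3 : B₁ + 1 ≤ S := by
    rw [hS, Nat.le_div_iff_mul_le hM, mul_comm]
    exact hT
  have hS4 : T ≤ 2 * M * S := by nlinarith
  have hvM : ∀ j, (M : ℤ) * (v j / M) = v j := fun j =>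
    Int.mul_ediv_cancel' (dvd_trans ⟨(Q : ℤ), by push_cast; ring⟩ (hv1 j))
  have hmain := h S (by omega) A hA1 hA2 (fun h => g (fun j => M * h j)) hA3
    (fun j => v j / M) (by
      intro j
      obtain ⟨y, hy⟩ := hv1 j
      refine ⟨y, ?_⟩
      have h1 := hvM j
      rw [hy] at h1 ⊢
      push_cast at h1 ⊢
      have h2 : (M : ℤ) * ((Q : ℤ) * M * y / M) = M * (Q * y) := by rw [h1]; ring
      exact mul_left_cancel₀ hMZ.ne' h2) (by
      intro j
      have h1 := hv2 j
      have h2 : |v j| = M * |v j / M| := by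
        conv_lhs => rw [← hvM j]
        rw [abs_mul, abs_of_pos hMZ]
      have h4 : (T : ℤ) ≤ 2 * M * S := by exact_mod_cast hS4
      push_cast at h1
      rw [h2] at h1
      have h5 : (2 * (M : ℤ) * M) * (B₁ * |v j / M|) ≤ (2 * M * M) * S := by
        have h6 : (1 : ℤ) ≤ M := hMZ
        have h7 : (2 * (M : ℤ) * M) * (B₁ * |v j / M|) ≤ T := by
          calc (2 * (M : ℤ) * M) * (B₁ * |v j / M|) = 2 * M * B₁ * (M * |v j / M|) := by ring
            _ ≤ T := h1
        have h8 : (2 : ℤ) * M * S ≤ 2 * M * M * S := by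
          have h9 : (0 : ℤ) ≤ 2 * M * S := by positivity
          nlinarith
        linarith
      exact le_of_mul_le_mul_left h5 (by positivity))
  have hTR : (T : ℝ) ≤ 2 * M * S := by exact_mod_cast hS4
  calc c₁ / (2 * M) ^ ((p - 1) * k) * (T : ℝ) ^ ((p - 1) * k)
      ≤ c₁ / (2 * M) ^ ((p - 1) * k) * (2 * M * S) ^ ((p - 1) * k) := by
        apply mul_le_mul_of_nonneg_left _ (by positivity)
        exact pow_le_pow_left₀ (Nat.cast_nonneg _) hTR _
    _ = c₁ * (S : ℝ) ^ ((p - 1) * k) := by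
        rw [mul_pow (2 * (M : ℝ)) (S : ℝ)]
        field_simp
    _ ≤ _ := hmain
    _ ≤ _ := by
        rw [Nat.cast_le]
        apply card_le_card_of_injOn (fun h i j => (M : ℤ) * h i j)
        · intro h hh
          rw [mem_coe, mem_filter, Fintype.mem_piFinset] at hh ⊢
          refine ⟨fun i => ?_, fun i => hh.2.1 i, fun j => ?_⟩
          · rw [Fintype.mem_piFinset]
            intro j
            have h1 := hh.1 i
            rw [Fintype.mem_piFinset] at h1
            have h2 := mem_Ioo.1 (h1 j)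
            have h3 : (M : ℤ) * S ≤ T := by exact_mod_cast hS1
            rw [mem_Ioo]
            constructor
            · have : (M : ℤ) * (-(S : ℤ)) < M * h i j := mul_lt_mul_of_pos_left h2.1 hMZ
              linarith
            · have : (M : ℤ) * h i j < M * S := mul_lt_mul_of_pos_left h2.2 hMZ
              linarith
          · show ∑ i, a i * ((M : ℤ) * h i j) = v j
            have h1 : ∀ i, a i * ((M : ℤ) * h i j) = M * (a i * h i j) := fun i => by ring
            rw [sum_congr rfl (fun i _ => h1 i), ← mul_sum, hh.2.2 j]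
            exact hvM j
        · intro h _ h' _ hhh
          funext i j
          have h2 : (M : ℤ) * h i j = M * h' i j := congrFun (congrFun hhh i) j
          exact mul_left_cancel₀ hMZ.ne' h2

open Classical in
/-- from sets of natural numbers to sets of integers -/
theorem toZ {k : ℕ} {ε : ℝ} {S : ℕ} {A : Finset ℕ} (hA : A ⊆ range S) (g : (Fin k → ℤ) → Prop) (M : ℕ)
    (h : (((Fintype.piFinset (fun _ : Fin (k + 1) => A)).filter (fun y : Fin (k + 1) → ℕ =>
        Function.Injective y ∧ ¬ g (fun j => (M : ℤ) * ((y j.succ : ℤ) - y 0)))).card : ℝ) ≤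
          ε * (S : ℝ) ^ (k + 1)) :
    ∃ A' ⊆ Ico 0 (S : ℤ), A'.card = A.card ∧
      (((Fintype.piFinset (fun _ : Fin (k + 1) => A')).filter (fun y => Function.Injective y ∧
        ¬ g (fun j => (M : ℤ) * (y j.succ - y 0)))).card : ℝ) ≤ ε * (S : ℝ) ^ (k + 1) := by
  refine ⟨A.image (fun n : ℕ => (n : ℤ)), ?_, card_image_of_injective _ Nat.cast_injective, ?_⟩
  · intro x hx
    obtain ⟨n, hn, rfl⟩ := mem_image.1 hx
    have := mem_range.1 (hA hn)
    rw [mem_Ico]
    omega
  · refine le_trans ?_ h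
    rw [Nat.cast_le]
    apply card_le_card_of_injOn (fun y i => (y i).toNat)
    · intro y hy
      rw [mem_coe, mem_filter, Fintype.mem_piFinset] at hy ⊢
      have hy0 : ∀ i, 0 ≤ y i := by
        intro i
        obtain ⟨n, _, hn⟩ := mem_image.1 (hy.1 i)
        rw [← hn]; positivity
      refine ⟨fun i => ?_, fun i j hij => hy.2.1 ?_, ?_⟩
      · obtain ⟨n, hn, hni⟩ := mem_image.1 (hy.1 i)
        show (y i).toNat ∈ A
        rw [← hni, Int.toNat_natCast]
        exact hn
      · have h1 : (y i).toNat = (y j).toNat := hij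
        have := hy0 i
        have := hy0 j
        omega
      · intro hg
        apply hy.2.2
        convert hg using 2
        rw [Int.toNat_of_nonneg (hy0 _), Int.toNat_of_nonneg (hy0 _)]
    · intro y hy y' hy' hyy
      rw [mem_coe, mem_filter, Fintype.mem_piFinset] at hy hy'
      funext i
      have h1 : (y i).toNat = (y' i).toNat := congrFun hyy i
      obtain ⟨n, _, hn⟩ := mem_image.1 (hy.1 i)
      obtain ⟨n', _, hn'⟩ := mem_image.1 (hy'.1 i)
      omega

end Pool.Agent.N646.RO
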