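import Pool.Agent.N646.RO.Lift
import Pool.Agent.N646.RO.Stm2
import Pool.Agent.H387R2.U2

/-! Project RQ: the singular series and the final theorem. -/

set_option autoImplicit false

namespace Pool.Agent.N646.RO

open Finset Filter Topology
open Pool.Agent.N646.SF

/-- the number of residue classes modulo `p` occupied by `0, h_1, …, h_k` -/
def nuZ {k : ℕ} (h : Fin k → ℤ) (p : ℕ) : ℕ :=
  (univ.image (fun i => (Fin.cons 0 h : Fin (k + 1) → ℤ) i % (p : ℤ))).card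

/-- the factor at `p` of the singular series of `0, h_1, …, h_k` -/
noncomputable def locZ {k : ℕ} (h : Fin k → ℤ) (p : ℕ) : ℝ :=
  (1 - (nuZ h p : ℝ) / p) / (1 - 1 / (p : ℝ)) ^ (k + 1)

/-- the singular series of `0, h_1, …, h_k` converges to some `S > 0` and at least
`κ S x / (log x) ^ (k + 1)` of the `n ≤ x` make all `n, n + h_1, …, n + h_k` prime -/
def GoodS (k : ℕ) (κ : ℝ) (x : ℕ) (h : Fin k → ℤ) : Prop :=
  ∃ S : ℝ, 0 < S ∧ HasProd (fun p : Nat.Primes => locZ h p) S ∧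
    κ * S * ((x : ℝ) / (Real.log x) ^ (k + 1)) ≤
      (((Icc 1 x).filter (fun n : ℕ =>
        ∀ i, ((n : ℤ) + (Fin.cons 0 h : Fin (k + 1) → ℤ) i).toNat.Prime)).card : ℝ)

theorem cons_eq {k : ℕ} (M : ℕ) (y : Fin (k + 1) → ℕ) (i : Fin (k + 1)) :
    (Fin.cons 0 (fun j : Fin k => (M : ℤ) * ((y j.succ : ℤ) - y 0)) : Fin (k + 1) → ℤ) i =
      ((M * y i : ℕ) : ℤ) - ((M * y 0 : ℕ) : ℤ) := by
  rcases Fin.eq_zero_or_eq_succ i with h0 | ⟨j, hj⟩
  · subst h0
    rw [Fin.cons_zero]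
    ring
  · subst hj
    rw [Fin.cons_succ]
    push_cast
    ring

theorem nuZ_eq {k : ℕ} (M : ℕ) (y : Fin (k + 1) → ℕ) (p : ℕ) (hp : 0 < p) :
    nuZ (fun j : Fin k => (M : ℤ) * ((y j.succ : ℤ) - y 0)) p =
      Pool.Agent.H387R2.Uni.nuT (univ.image (fun i => M * y i)) p := by
  classical
  unfold nuZ Pool.Agent.H387R2.Uni.nuT
  rw [image_image]
  have hpZ : (0 : ℤ) < p := by exact_mod_cast hp
  have key : ∀ i i' : Fin (k + 1),
      ((Fin.cons 0 (fun j : Fin k => (M : ℤ) * ((y j.succ : ℤ) - y 0)) : Fin (k + 1) → ℤ) i % (p : ℤ) =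
        (Fin.cons 0 (fun j : Fin k => (M : ℤ) * ((y j.succ : ℤ) - y 0)) : Fin (k + 1) → ℤ) i' % (p : ℤ)) ↔
      ((M * y i) % p = (M * y i') % p) := by
    intro i i'
    rw [cons_eq, cons_eq]
    constructor
    · intro h
      have h1 : ((M * y i : ℕ) : ℤ) - ((M * y 0 : ℕ) : ℤ) ≡
        ((M * y i' : ℕ) : ℤ) - ((M * y 0 : ℕ) : ℤ) [ZMOD p] := h
      have h2 : ((M * y i : ℕ) : ℤ) ≡ ((M * y i' : ℕ) : ℤ) [ZMOD p] := by
        have := h1.add_right ((M * y 0 : ℕ) : ℤ)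
        simpa using this
      exact (Int.natCast_modEq_iff.1 h2)
    · intro h
      have h2 : ((M * y i : ℕ) : ℤ) ≡ ((M * y i' : ℕ) : ℤ) [ZMOD p] :=
        Int.natCast_modEq_iff.2 h
      exact h2.sub_right _
  apply card_bij' (i := fun a _ => if h : ∃ i, (Fin.cons 0 (fun j : Fin k => (M : ℤ) *
      ((y j.succ : ℤ) - y 0)) : Fin (k + 1) → ℤ) i % (p : ℤ) = a then (M * y h.choose) % p else 0)
    (j := fun b _ => if h : ∃ i, (M * y i) % p = b then (Fin.cons 0 (fun j : Fin k => (M : ℤ) *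
      ((y j.succ : ℤ) - y 0)) : Fin (k + 1) → ℤ) h.choose % (p : ℤ) else 0)
  · intro a ha
    obtain ⟨i, _, hi⟩ := mem_image.1 ha
    have hex : ∃ i, (Fin.cons 0 (fun j : Fin k => (M : ℤ) *
      ((y j.succ : ℤ) - y 0)) : Fin (k + 1) → ℤ) i % (p : ℤ) = a := ⟨i, hi⟩
    rw [dif_pos hex, mem_image]
    exact ⟨hex.choose, mem_univ _, rfl⟩
  · intro b hb
    obtain ⟨i, _, hi⟩ := mem_image.1 hb
    have hex : ∃ i, (M * y i) % p = b := ⟨i, hi⟩
    rw [dif_pos hex, mem_image]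
    exact ⟨hex.choose, mem_univ _, rfl⟩
  · intro a ha
    obtain ⟨i, _, hi⟩ := mem_image.1 ha
    have hex : ∃ i, (Fin.cons 0 (fun j : Fin k => (M : ℤ) *
      ((y j.succ : ℤ) - y 0)) : Fin (k + 1) → ℤ) i % (p : ℤ) = a := ⟨i, hi⟩
    simp only [dif_pos hex]
    have hex2 : ∃ i, (M * y i) % p = (M * y hex.choose) % p := ⟨hex.choose, rfl⟩
    rw [dif_pos hex2]
    have h1 := hex2.choose_spec
    exact ((key _ _).2 h1).trans hex.choose_spec
  · intro b hb
    obtain ⟨i, _, hi⟩ := mem_image.1 hb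
    have hex : ∃ i, (M * y i) % p = b := ⟨i, hi⟩
    simp only [dif_pos hex]
    have hex2 : ∃ i, (Fin.cons 0 (fun j : Fin k => (M : ℤ) *
      ((y j.succ : ℤ) - y 0)) : Fin (k + 1) → ℤ) i % (p : ℤ) = (Fin.cons 0 (fun j : Fin k => (M : ℤ) *
      ((y j.succ : ℤ) - y 0)) : Fin (k + 1) → ℤ) hex.choose % (p : ℤ) := ⟨hex.choose, rfl⟩
    rw [dif_pos hex2]
    have h1 := hex2.choose_spec
    exact ((key _ _).1 h1).trans hex.choose_spec

theorem goodS_of {k : ℕ} {κ C : ℝ} (hκ : 0 < κ) (hC : 0 < C) {x M : ℕ} (hM : 1 ≤ M)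
    (hMk : (k + 1).factorial ∣ M) {y : Fin (k + 1) → ℕ} (hy : Function.Injective y)
    (hCT : Pool.Agent.H387R2.Uni.CT (univ.image (fun i => M * y i)) ≤ C)
    (h : GoodR k κ x (fun j => (M : ℤ) * ((y j.succ : ℤ) - y 0))) :
    GoodS k (κ / C) x (fun j => (M : ℤ) * ((y j.succ : ℤ) - y 0)) := by
  classical
  set T : Finset ℕ := univ.image (fun i => M * y i) with hT
  have hinj : Function.Injective (fun i => M * y i) := fun i j hij =>
    hy (Nat.eq_of_mul_eq_mul_left hM hij)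
  have hTc : T.card = k + 1 := by
    rw [hT, card_image_of_injective _ hinj, card_univ, Fintype.card_fin]
  refine ⟨Pool.Agent.H387R2.Uni.CT T, ?_, ?_, ?_⟩
  · rw [← Pool.Agent.H387R2.Uni.CT_en]
    apply Pool.Agent.H386R2.HL.singularSeries_pos (Pool.Agent.H387R2.Uni.en_inj T)
    intro p hp
    rw [Pool.Agent.H387R2.Uni.nu_en]
    unfold Pool.Agent.H387R2.Uni.nuT
    by_cases hpk : p ≤ k + 1
    · have hpM : p ∣ M := (Nat.dvd_factorial hp.pos hpk).trans hMk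
      have h1 : T.image (· % p) ⊆ {0} := by
        intro r hr
        obtain ⟨t, ht, rfl⟩ := mem_image.1 hr
        obtain ⟨i, _, rfl⟩ := mem_image.1 ht
        rw [mem_singleton]
        exact Nat.mod_eq_zero_of_dvd (hpM.mul_right _)
      have h2 := card_le_card h1
      rw [card_singleton] at h2
      have := hp.two_le
      omega
    · have h2 := card_image_le (s := T) (f := (· % p))
      omega
  · have h1 := Pool.Agent.H387R2.Uni.CT_hasProd T
    convert h1 using 1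
    funext p
    unfold locZ Pool.Agent.H387R2.Uni.locT
    rw [nuZ_eq M y p p.2.pos, hTc]
  · unfold GoodR at h
    refine le_trans ?_ h
    apply mul_le_mul_of_nonneg_right
    · rw [div_mul_eq_mul_div, div_le_iff₀ hC]
      exact mul_le_mul_of_nonneg_left hCT hκ.le
    · have : 0 ≤ Real.log (x : ℝ) := Real.log_natCast_nonneg x
      positivity

open Classical in
/-- **linear equations in vectors with the right order of magnitude** -/
theorem equationsR (hWC : S_WC) (hSS : S_SS) (k p : ℕ) (hH : S_HITM k) (a : Fin p → ℤ)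
    (ha : ∀ i, a i ≠ 0) (hp : 2 ≤ p) (hk : ((k : ℤ) + 1) * (18 - 5 * p) < 18) :
    ∃ N B : ℕ, 1 ≤ N ∧ 1 ≤ B ∧ ∃ c : ℝ, 0 < c ∧ ∀ lam : ℝ, 0 < lam → ∃ κ : ℝ, 0 < κ ∧
      ∀ᶠ x : ℕ in atTop, ∀ T : ℕ, lam * Real.log x ≤ T → B * T ≤ x →
      ∀ v : Fin k → ℤ, (∀ j, (N : ℤ) ∣ v j) → (∀ j, B * |v j| ≤ T) →
        c * (T : ℝ) ^ ((p - 1) * k) ≤
          (((Fintype.piFinset (fun _ : Fin p => Fintype.piFinset (fun _ : Fin k =>
            Ioo (-(T : ℤ)) T))).filter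
              (fun h => (∀ i, GoodS k κ x (h i)) ∧ ∀ j, ∑ i, a i * h i j = v j)).card : ℝ) := by
  have hk' : ((k : ℝ) + 1) * (1 - min 1 ((p : ℝ) * (5 / 18))) < 1 := by
    rcases le_total 1 ((p : ℝ) * (5 / 18)) with h | h
    · rw [min_eq_left h]
      norm_num
    · rw [min_eq_right h]
      have : (((((k : ℤ) + 1) * (18 - 5 * p) : ℤ)) : ℝ) < ((18 : ℤ) : ℝ) := by exact_mod_cast hk
      push_cast at this
      nlinarith
  obtain ⟨ε, hε, Q, B₁, hQ, hB₁, c₁, hc₁, h⟩ :=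
    sfgT k p (5 / 18) a ha hp (by norm_num) (by norm_num) hk'
  obtain ⟨M, hM, hMk, hcl⟩ := clr hWC k hH (ε / 2) (by linarith)
  obtain ⟨C, hC, hSS'⟩ := hSS k M (ε / 2) hM (by linarith)
  have hMR : (0 : ℝ) < M := by exact_mod_cast hM
  refine ⟨Q * M, 2 * M * B₁ + 8, Nat.mul_pos hQ hM, by omega, c₁ / (2 * M) ^ ((p - 1) * k),
    by positivity, fun lam hlam => ?_⟩
  obtain ⟨κ, hκ, hx⟩ := hcl (lam / (2 * M)) (by positivity)
  refine ⟨κ / C, by positivity, ?_⟩
  have hlog : Tendsto (fun N : ℕ => lam * Real.log (N : ℝ)) atTop atTop :=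
    (Real.tendsto_log_atTop.comp tendsto_natCast_atTop_atTop).const_mul_atTop hlam
  filter_upwards [hx, hlog.eventually_ge_atTop ((M * (B₁ + 1) : ℕ) : ℝ)] with x hx hxl
    T hT hTx v hv1 hv2
  have hTM : M * (B₁ + 1) ≤ T := by
    have : ((M * (B₁ + 1) : ℕ) : ℝ) ≤ T := hxl.trans hT
    exact_mod_cast this
  have hS1 : M * (T / M) ≤ T := Nat.mul_div_le T M
  have hS2 : T < M * (T / M + 1) := Nat.lt_mul_div_succ T hM
  have hS3 : B₁ + 1 ≤ T / M := by
    rw [Nat.le_div_iff_mul_le hM, mul_comm]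
    exact hTM
  have hS4 : T ≤ 2 * M * (T / M) := by nlinarith
  have hS4R : (T : ℝ) ≤ 2 * M * ((T / M : ℕ) : ℝ) := by exact_mod_cast hS4
  have hTa : lam / (2 * M) * Real.log x ≤ ((T / M : ℕ) : ℝ) := by
    rw [div_mul_eq_mul_div, div_le_iff₀ (by positivity)]
    calc lam * Real.log x ≤ T := hT
      _ ≤ 2 * M * ((T / M : ℕ) : ℝ) := hS4R
      _ = ((T / M : ℕ) : ℝ) * (2 * M) := by ring
  have hTb : 8 * (M * (T / M)) ≤ x := by
    have h1 : 8 * T ≤ (2 * M * B₁ + 8) * T := Nat.mul_le_mul_right _ (by omega)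
    have h2 : 8 * (M * (T / M)) ≤ 8 * T := Nat.mul_le_mul_left _ hS1
    exact h2.trans (h1.trans hTx)
  obtain ⟨A, hA1, hA2, hA3⟩ := hx (T / M) hTa hTb
  -- the bad tuples
  have hA4 : (((Fintype.piFinset (fun _ : Fin (k + 1) => A)).filter (fun y : Fin (k + 1) → ℕ =>
        Function.Injective y ∧ ¬ GoodS k (κ / C) x (fun j => (M : ℤ) * ((y j.succ : ℤ) - y 0)))).card : ℝ) ≤
          ε * ((T / M : ℕ) : ℝ) ^ (k + 1) := by
    have h1 : (Fintype.piFinset (fun _ : Fin (k + 1) => A)).filter (fun y : Fin (k + 1) → ℕ =>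
        Function.Injective y ∧ ¬ GoodS k (κ / C) x (fun j => (M : ℤ) * ((y j.succ : ℤ) - y 0))) ⊆
        (Fintype.piFinset (fun _ : Fin (k + 1) => A)).filter (fun y : Fin (k + 1) → ℕ =>
          Function.Injective y ∧ ¬ GoodR k κ x (fun j => (M : ℤ) * ((y j.succ : ℤ) - y 0))) ∪
        (Fintype.piFinset (fun _ : Fin (k + 1) => range (T / M))).filter (fun F =>
          Function.Injective F ∧
          C < Pool.Agent.H387R2.Uni.CT (univ.image (fun i => M * F i))) := by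
      intro y hy
      rw [mem_filter, Fintype.mem_piFinset] at hy
      rw [mem_union, mem_filter, mem_filter, Fintype.mem_piFinset, Fintype.mem_piFinset]
      by_cases hR : GoodR k κ x (fun j => (M : ℤ) * ((y j.succ : ℤ) - y 0))
      · refine Or.inr ⟨fun i => hA1 (hy.1 i), hy.2.1, ?_⟩
        by_contra hCT
        exact hy.2.2 (goodS_of hκ hC hM hMk hy.2.1 (not_lt.1 hCT) hR)
      · exact Or.inl ⟨hy.1, hy.2.1, hR⟩
    have h2 := (card_le_card h1).trans (card_union_le _ _)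
    have h3 : (((Fintype.piFinset (fun _ : Fin (k + 1) => A)).filter (fun y : Fin (k + 1) → ℕ =>
        Function.Injective y ∧ ¬ GoodS k (κ / C) x (fun j => (M : ℤ) * ((y j.succ : ℤ) - y 0)))).card : ℝ) ≤
        (((Fintype.piFinset (fun _ : Fin (k + 1) => A)).filter (fun y : Fin (k + 1) → ℕ =>
          Function.Injective y ∧ ¬ GoodR k κ x (fun j => (M : ℤ) * ((y j.succ : ℤ) - y 0)))).card : ℝ) +
        (((Fintype.piFinset (fun _ : Fin (k + 1) => range (T / M))).filter (fun F =>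
          Function.Injective F ∧
          C < Pool.Agent.H387R2.Uni.CT (univ.image (fun i => M * F i)))).card : ℝ) := by
      exact_mod_cast h2
    have h4 := hSS' (T / M)
    linarith
  obtain ⟨A', hA1', hA2', hA3'⟩ := toZ hA1 (GoodS k (κ / C) x) M hA4
  have hA5 : (5 / 18 - ε) * ((T / M : ℕ) : ℝ) ≤ (A'.card : ℝ) := by
    rw [hA2']
    refine le_trans ?_ hA2
    apply mul_le_mul_of_nonneg_right _ (Nat.cast_nonneg _)
    linarith
  refine lift hc₁ h M hM (GoodS k (κ / C) x) T hTM A' hA1' hA5 hA3' v hv1 fun j => ?_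
  have h5 := hv2 j
  have h6 : ((2 * M * B₁ : ℕ) : ℤ) * |v j| ≤ ((2 * M * B₁ + 8 : ℕ) : ℤ) * |v j| := by
    apply mul_le_mul_of_nonneg_right _ (abs_nonneg _)
    push_cast
    linarith
  exact h6.trans h5

end Pool.Agent.N646.RO
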