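import Mathlib

/-!
Project RQ (helper646): almost cliques with the right order of magnitude. Statements.
-/

set_option autoImplicit false

namespace Pool.Agent.N646.RO

open Finset Filter Topology

/-- `m` is not divisible by any prime `≤ N ^ δ` -/
def Rgh (δ : ℝ) (N : ℕ) (m : ℤ) : Prop :=
  ∀ p : ℕ, p.Prime → Real.log p ≤ δ * Real.log N → ¬ (p : ℤ) ∣ m

open Classical in
/-- **MB** moments of the number of rough integers in intervals of length `log N`. -/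
def S_MB : Prop := ∀ (δ : ℝ) (r : ℕ), 0 < δ → ∃ C : ℝ, 0 < C ∧ ∀ᶠ N : ℕ in atTop,
  ∑ n ∈ Icc (N / 20) (4 * N), (((range (⌊Real.log N⌋₊ + 1)).filter
    (fun v : ℕ => Rgh δ N (n + v))).card : ℝ) ^ r ≤ C * N

open Classical in
/-- **WB** the same for the multiples of `M` in longer intervals. -/
def S_WB : Prop := ∀ (δ lam : ℝ) (M r : ℕ), 0 < δ → 0 < lam → 1 ≤ M → ∃ C : ℝ, 0 < C ∧
  ∀ᶠ N : ℕ in atTop, ∀ T : ℕ, lam * Real.log N ≤ T → M * T ≤ N →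
    ∑ n ∈ Icc (N / 18) (2 * N), (((range T).filter
      (fun t : ℕ => Rgh δ N (n + M * t))).card : ℝ) ^ r ≤ C * N * (T / Real.log N) ^ r

open Classical in
/-- **BB** the same for the integers just below `n`. -/
def S_BB : Prop := ∀ (δ : ℝ) (s r : ℕ), 0 < δ → ∃ C : ℝ, 0 < C ∧ ∀ᶠ N : ℕ in atTop,
  ∑ n ∈ Icc (N / 18) (2 * N), (((range (⌊Real.log N⌋₊ + s + 1)).filter
    (fun j : ℕ => Rgh δ N (n - j))).card : ℝ) ^ r ≤ C * N

open Classical in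
/-- **HIT** one configuration: `T` classes with `K` shifts each. -/
def S_HIT : Prop := ∀ T M : ℕ, 1 ≤ T → (18 / 5 : ℝ) * M < T → ∃ K s : ℕ, 1 ≤ K ∧ ∃ δ c : ℝ, 0 < δ ∧ 0 < c ∧
  ∀ᶠ N : ℕ in atTop, ∀ M₀ : ℕ, 1 ≤ M₀ → (∀ p : ℕ, p.Prime → p ≤ T * K → p ∣ M₀) →
    ∀ H : Fin T × Fin K → ℕ, Function.Injective H → (∀ x, 2 * (M₀ * H x) ≤ N) →
    ∃ (S : Finset (Fin T)) (σ : Fin T → Fin K), M + 1 ≤ S.card ∧
      c * (N / (Real.log N) ^ (T * K)) ≤
        ∑ n ∈ (Icc (N / 18) (2 * N)).filter (fun n : ℕ => (∀ x, Rgh δ N (n + M₀ * H x)) ∧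
            ∀ g ∈ S, (n + M₀ * H (g, σ g)).Prime),
          (((range (⌊Real.log N⌋₊ + s + 1)).filter (fun j : ℕ => Rgh δ N (n - j))).card : ℝ)

/-- the number of the `1 ≤ n ≤ 2 N` for which all `n + M F i` are prime -/
def piR {k : ℕ} (N M : ℕ) (F : Fin (k + 1) → ℕ) : ℕ :=
  ((Icc 1 (2 * N)).filter (fun n : ℕ => ∀ i, (n + M * F i).Prime)).card

/-- the right order of magnitude -/
def Gd {k : ℕ} (κ : ℝ) (N M : ℕ) (F : Fin (k + 1) → ℕ) : Prop :=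
  κ * (N / (Real.log N) ^ (k + 1)) ≤ (piR N M F : ℝ)

open Classical in
/-- **HITM** for most configurations there is a large transversal all of whose `k + 1` element subsets
have the right order of magnitude. -/
def S_HITM (k : ℕ) : Prop := ∀ T M : ℕ, 1 ≤ T → (18 / 5 : ℝ) * M < T → ∃ K : ℕ, 1 ≤ K ∧
  ∀ M₀ : ℕ, 1 ≤ M₀ → (∀ p : ℕ, p.Prime → p ≤ T * K → p ∣ M₀) → ∀ lam δ' : ℝ, 0 < lam → 0 < δ' →
  ∃ κ : ℝ, 0 < κ ∧ ∀ᶠ N : ℕ in atTop, ∀ T₁ : ℕ, lam * Real.log N ≤ T₁ → 2 * (M₀ * T₁) ≤ N →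
    (((Fintype.piFinset (fun _ : Fin T × Fin K => range T₁)).filter (fun H => Function.Injective H ∧
      ¬ ∃ (S : Finset (Fin T)) (σ : Fin T → Fin K), M + 1 ≤ S.card ∧
        ∀ F : Fin (k + 1) → ℕ, Function.Injective F → (∀ i, ∃ g ∈ S, F i = H (g, σ g)) →
          Gd κ N M₀ F)).card : ℝ) ≤ δ' * (T₁ : ℝ) ^ (T * K)

open Classical in
/-- the hitting property for most configurations -/
def HitM (lam : ℝ) {α : Type} [DecidableEq α] (Kf : ℕ → ℕ) (M : ℕ) (δ' : ℝ) (V : Finset α)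
    (G : Finset α → Prop) : Prop :=
  ∀ T' : ℕ, 1 ≤ T' → T' ≤ M →
    (((Fintype.piFinset (fun _ : Fin T' × Fin (Kf T') => V)).filter (fun H => Function.Injective H ∧
      ¬ ∃ (S : Finset (Fin T')) (c : Fin T' → Fin (Kf T')), (T' : ℝ) ≤ lam * (S.card : ℝ) ∧
        G (S.image (fun g => H (g, c g))))).card : ℝ) ≤ δ' * (V.card : ℝ) ^ (T' * Kf T')

open Classical in
/-- the tuples of distinct elements of `A` which are not in `G` -/
noncomputable def badU {α : Type} [DecidableEq α] (k : ℕ) (A : Finset α) (G : Finset α → Prop) :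
    Finset (Fin (k + 1) → α) :=
  (Fintype.piFinset (fun _ : Fin (k + 1) => A)).filter
    (fun y => Function.Injective y ∧ ¬ G (univ.image y))

/-- **WC** almost cliques from the hitting property for most configurations. -/
def S_WC : Prop := ∀ (lam : ℝ), 1 ≤ lam → ∀ (k : ℕ) (ε : ℝ), 0 < ε → ∀ Kf : ℕ → ℕ,
  ∃ M n₀ : ℕ, ∃ δ' : ℝ, 0 < δ' ∧ ∀ (α : Type) [DecidableEq α] (V : Finset α) (G : Finset α → Prop),
    n₀ ≤ V.card → (∀ F F' : Finset α, F' ⊆ F → G F → G F') → HitM lam Kf M δ' V G →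
    ∃ A ⊆ V, (1 / lam - ε) * (V.card : ℝ) ≤ A.card ∧
      ((badU k A G).card : ℝ) ≤ ε * (V.card : ℝ) ^ (k + 1)

end Pool.Agent.N646.RO
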