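import Pool.Agent.N646.RO.Stm

/-!
Project RQ (helper646): almost cliques with the right order of magnitude. Statements, third part.
-/

set_option autoImplicit false

namespace Pool.Agent.N646.RO

open Finset Filter Topology

open Classical in
/-- **E1** the second moment of the number of rough integers just below `n`, over all configurations. -/
def S_E1 : Prop := ∀ (T K s M₀ : ℕ) (δ lam : ℝ), 0 < δ → 0 < lam → 1 ≤ M₀ → ∃ C : ℝ, 0 < C ∧
  ∀ᶠ N : ℕ in atTop, ∀ T₁ : ℕ, lam * Real.log N ≤ T₁ → M₀ * T₁ ≤ N →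
    ∑ H ∈ Fintype.piFinset (fun _ : Fin T × Fin K => range T₁),
      ∑ n ∈ (Icc (N / 18) (2 * N)).filter (fun n : ℕ => ∀ x, Rgh δ N (n + M₀ * H x)),
        (((range (⌊Real.log N⌋₊ + s + 1)).filter (fun j : ℕ => Rgh δ N (n - j))).card : ℝ) ^ 2 ≤
      C * N * (T₁ / Real.log N) ^ (T * K)

open Classical in
/-- **E2** the bad tuples contribute little. -/
def S_E2 (k : ℕ) : Prop := ∀ (T K M₀ : ℕ) (δ lam : ℝ), 0 < δ → 0 < lam → 1 ≤ M₀ → ∃ C : ℝ, 0 < C ∧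
  ∀ᶠ N : ℕ in atTop, ∀ T₁ : ℕ, lam * Real.log N ≤ T₁ → M₀ * T₁ ≤ N →
    ∀ κ : ℝ, 0 < κ → κ ≤ 1 → ∀ π : Fin (k + 1) → Fin T × Fin K, Function.Injective π →
    ∑ H ∈ (Fintype.piFinset (fun _ : Fin T × Fin K => range T₁)).filter
        (fun H => ¬ Gd κ N M₀ (fun i => H (π i))),
      (((Icc (N / 18) (2 * N)).filter (fun n : ℕ => (∀ x, Rgh δ N (n + M₀ * H x)) ∧
        ∀ i, (n + M₀ * H (π i)).Prime)).card : ℝ) ≤
      C * Real.sqrt κ * N * (T₁ / Real.log N) ^ (T * K)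

end Pool.Agent.N646.RO
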